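import Pool.Agent.OMF.Stmts

/-!
# OMF, row MSB: sum of the sizes of `Miss` over the points off the rich lines
-/

set_option autoImplicit false

namespace Pool.Agent.OMF.H27

open Finset Pool.Agent.GTO Pool.Agent.OMF
open scoped Classical

variable {ι : Type} [Fintype ι]

theorem mem_lns (a : ι → V) {x y : ι} (h : x ≠ y) : ln a x y ∈ lns a := by
  unfold lns
  rw [mem_image]
  exact ⟨(x, y), by simpa using h, rfl⟩

theorem miss_card (a : ι → V) (N : ℕ)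
    (h2 : ∀ i j, i ≠ j → i ∈ ln a i j ∧ j ∈ ln a i j) (x : ι) :
    (Miss a N x).card ≤
      ∑ ℓ ∈ (lns a).filter (fun ℓ => ℓ ∉ FG a N ∧ x ∈ ℓ), (ℓ.card - 1) := by
  have hsub : Miss a N x ⊆
      ((lns a).filter (fun ℓ => ℓ ∉ FG a N ∧ x ∈ ℓ)).biUnion (fun ℓ => ℓ.erase x) := by
    intro y hy
    unfold Miss at hy
    rw [mem_filter] at hy
    obtain ⟨_, hyx, hFG⟩ := hy
    have h := h2 x y (Ne.symm hyx)
    rw [mem_biUnion]
    refine ⟨ln a x y, ?_, ?_⟩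
    · rw [mem_filter]
      exact ⟨mem_lns a (Ne.symm hyx), hFG, h.1⟩
    · rw [mem_erase]
      exact ⟨hyx, h.2⟩
  refine le_trans (card_le_card hsub) (le_trans card_biUnion_le (le_of_eq ?_))
  refine sum_congr rfl fun ℓ hℓ => ?_
  rw [mem_filter] at hℓ
  exact card_erase_of_mem hℓ.2.2

theorem sub_UU (a : ι → V) (k : ℕ) {ℓ : Finset ι} (hℓ : ℓ ∈ lns a) (hk : k ≤ ℓ.card) {x : ι}
    (hx : x ∈ ℓ) : x ∈ UU a k := by
  unfold UU
  rw [mem_filter]
  exact ⟨mem_univ _, ℓ, hℓ, hk, hx⟩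

theorem double (a : ι → V) (N k : ℕ)
    (h2 : ∀ i j, i ≠ j → i ∈ ln a i j ∧ j ∈ ln a i j) :
    ∑ x ∈ univ \ UU a k, (Miss a N x).card ≤
      ∑ ℓ ∈ (lns a).filter (fun ℓ => ℓ ∉ FG a N ∧ ℓ.card < k), ℓ.card * (ℓ.card - 1) := by
  have h3 : ∑ x ∈ univ \ UU a k, (Miss a N x).card ≤
      ∑ x ∈ univ \ UU a k, ∑ ℓ ∈ lns a, (if ℓ ∉ FG a N ∧ x ∈ ℓ then (ℓ.card - 1) else 0) := by
    refine sum_le_sum fun x _ => ?_
    refine le_trans (miss_card a N h2 x) ?_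
    rw [sum_filter]
  refine le_trans h3 ?_
  rw [sum_comm, sum_filter]
  refine sum_le_sum fun ℓ hℓ => ?_
  by_cases hF : ℓ ∈ FG a N
  · simp [hF]
  · by_cases hk : ℓ.card < k
    · rw [if_pos ⟨hF, hk⟩]
      have h4 : ∑ x ∈ univ \ UU a k, (if ℓ ∉ FG a N ∧ x ∈ ℓ then (ℓ.card - 1) else 0) ≤
          ∑ x : ι, (if x ∈ ℓ then (ℓ.card - 1) else 0) := by
        refine le_trans (sum_le_sum_of_subset (subset_univ _)) (sum_le_sum fun x _ => ?_)
        by_cases hx : x ∈ ℓ <;> simp [hx, hF]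
      refine le_trans h4 (le_of_eq ?_)
      rw [← sum_filter]
      simp
    · rw [if_neg (fun h => hk h.2)]
      refine le_of_eq (sum_eq_zero fun x hx => ?_)
      rw [if_neg]
      rintro ⟨_, hxl⟩
      rw [mem_sdiff] at hx
      exact hx.2 (sub_UU a k hℓ (not_lt.1 hk) hxl)

theorem term (a : ι → V) (N k : ℕ) (hk : k ≤ N + 1) (h7 : ∀ ℓ ∈ lns a, 2 ≤ ℓ.card)
    (ℓ : Finset ι) (hℓ : ℓ ∈ lns a) :
    (if ℓ ∉ FG a N ∧ ℓ.card < k then ℓ.card * (ℓ.card - 1) else 0) ≤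
      (if ℓ.card = 2 then 2 else 0) + 6 * (ℓ.filter fun x => ¬ Sees a N x ℓ).card +
        N * (if 4 ≤ ℓ.card then ℓ.card else 0) := by
  by_cases hc : ℓ ∉ FG a N ∧ ℓ.card < k
  · rw [if_pos hc]
    obtain ⟨hF, hck⟩ := hc
    have hm := h7 ℓ hℓ
    rcases (show ℓ.card = 2 ∨ ℓ.card = 3 ∨ 4 ≤ ℓ.card by omega) with h | h | h
    · rw [h]
      simp
    · have hex : ∃ x ∈ ℓ, ¬ Sees a N x ℓ := by
        by_contra hcon
        push Not at hcon
        exact hF (by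
          unfold FG
          rw [mem_filter]
          exact ⟨hℓ, hcon⟩)
      obtain ⟨x, hx, hs⟩ := hex
      have h1 : 1 ≤ (ℓ.filter fun x => ¬ Sees a N x ℓ).card := by
        rw [Nat.one_le_iff_ne_zero, Ne, card_eq_zero]
        intro h0
        have hx' : x ∈ (ℓ.filter fun x => ¬ Sees a N x ℓ) := mem_filter.2 ⟨hx, hs⟩
        rw [h0] at hx'
        simp at hx'
      have h2 : ℓ.card * (ℓ.card - 1) = 6 := by rw [h]
      rw [h2]
      omega
    · have h1 : ℓ.card * (ℓ.card - 1) ≤ N * ℓ.card := by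
        rw [mul_comm]
        exact Nat.mul_le_mul_right _ (by omega)
      rw [if_pos h]
      exact le_trans h1 (Nat.le_add_left _ _)
  · rw [if_neg hc]
    exact Nat.zero_le _

theorem msb (bas : BasStmt) (cnt : CntStmt) (bpr : BprStmt) : MsbStmt := by
  intro ι _ a hPI hSpn N k hN hk
  obtain ⟨-, h2, -, -, -, -, h7⟩ := bas.2.2.2.2.2 ι a hPI
  obtain ⟨c1, c2, c3, c4⟩ := cnt ι a hPI hSpn
  have hcard : 2 ≤ Fintype.card ι := by
    obtain ⟨i, j, l, h⟩ := hSpn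
    by_contra hc
    have hs : Subsingleton ι := by
      rw [← Fintype.card_le_one_iff_subsingleton]
      omega
    apply h
    rw [hs.elim j i, hs.elim l i]
    unfold dt
    ring
  have hb := bpr ι a hPI hcard N
  have h3 := double a N k h2
  rw [sum_filter] at h3
  have h4 := sum_le_sum (term a N k hk h7)
  rw [sum_add_distrib, sum_add_distrib, ← mul_sum, ← mul_sum] at h4
  have h13 : ∑ ℓ ∈ lns a, (if 4 ≤ ℓ.card then ℓ.card else 0) =
      ∑ ℓ ∈ (lns a).filter (fun ℓ => 4 ≤ ℓ.card), ℓ.card := (sum_filter _ _).symm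
  rw [h13] at h4
  have h5 : ∑ ℓ ∈ lns a, (if ℓ.card = 2 then 2 else 0) = 2 * T2 a := by
    unfold T2
    rw [← sum_filter]
    simp [mul_comm]
  rw [h5] at h4
  have h6 : N * ∑ ℓ ∈ (lns a).filter (fun ℓ => 4 ≤ ℓ.card), ℓ.card ≤ N * (4 * T2 a) :=
    Nat.mul_le_mul_left _ c3
  have h8 : 6 * N * EE a ≤ 6 * N * (24 * T2 a) := Nat.mul_le_mul_left _ c1
  have h9 : T2 a ≤ N * T2 a := by
    calc T2 a = 1 * T2 a := (one_mul _).symm
      _ ≤ N * T2 a := Nat.mul_le_mul_right _ hN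
  have h10 : 6 * N * (24 * T2 a) = 144 * (N * T2 a) := by ring
  have h11 : N * (4 * T2 a) = 4 * (N * T2 a) := by ring
  have h12 : 330 * N * T2 a = 330 * (N * T2 a) := by ring
  rw [h12]
  rw [h10] at h8
  rw [h11] at h6
  omega

end Pool.Agent.OMF.H27
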